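import Pool.Agent.N801.CF.Main1

/-!
# The local-global principle for K3 surfaces associated with cubic fourfolds
-/

set_option autoImplicit false

namespace Pool.Agent.Results.MP_ffd2c1_ag.LocalGlobalK3

open Pool.Agent.Y95.Q Pool.Agent.N801.CF

/-- **The local-global principle for associated K3 surfaces.** A smooth cubic fourfold `X` has an
associated K3 surface if and only if it is special and for every prime number `p` there is a Hodge
class `v`, which may depend on `p`, such that the discriminant of `⟨h, v⟩` satisfies the condition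
(**) at `p`. If `X` has an associated twisted K3 surface, given by a Hodge class `v` with
discriminant `2 (a ^ 2 + a b + b ^ 2)`, then only the primes whose square divides the discriminant
of `v` matter; so two associated twisted K3 surfaces without a common such prime give an associated
K3 surface. -/
theorem result (X : CubicFourfold) (H : H4 X) (hH : H.IsCohomology) :
    (H.HasK3 ↔ 2 ≤ H.rank ∧
      ∀ p : ℕ, p.Prime → ∃ v, H.IsHodge v ∧ AdmissibleAt p (H.disc v)) ∧
    (∀ v, H.IsHodge v → 0 < H.disc v → (∃ a b : ℤ, H.disc v = 2 * (a ^ 2 + a * b + b ^ 2)) →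
      (H.HasK3 ↔ ∀ p : ℕ, p.Prime → p % 3 ≠ 1 → (p : ℤ) ^ 2 ∣ H.disc v →
        ∃ w, H.IsHodge w ∧ AdmissibleAt p (H.disc w))) ∧
    (∀ v w, H.IsHodge v → H.IsHodge w → 0 < H.disc v →
      (∃ a b : ℤ, H.disc v = 2 * (a ^ 2 + a * b + b ^ 2)) →
      (∃ a b : ℤ, H.disc w = 2 * (a ^ 2 + a * b + b ^ 2)) →
      (∀ p : ℕ, p.Prime → p % 3 ≠ 1 → (p : ℤ) ^ 2 ∣ H.disc v → ¬ (p : ℤ) ^ 2 ∣ H.disc w) →
      H.HasK3) := by
  refine ⟨hasK3_iff hH, ?_, ?_⟩
  · rintro v hv h0 ⟨a, b, hab⟩
    exact hasK3_iff_of_norm hH hv h0 hab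
  · rintro v w hv hw h0 ⟨a, b, hab⟩ ⟨c, d, hcd⟩ hco
    exact hasK3_of_two hH hv hw h0 hab hcd hco

end Pool.Agent.Results.MP_ffd2c1_ag.LocalGlobalK3
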