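import Pool.Agent.N801.CF.Main1

/-!
# Cubic fourfolds with a plane
-/

set_option autoImplicit false

namespace Pool.Agent.Results.MP_ffd2c1_ag.PlaneDiscriminants

open Pool.Agent.Y95.Q Pool.Agent.N801.CF

/-- **Cubic fourfolds with a plane.** A smooth cubic fourfold `X` which contains a plane has an
associated K3 surface if and only if the discriminant of `⟨h, v⟩` is not divisible by `4` for some
Hodge class `v`; and `X` is rational if there is such a class with discriminant at most `42`. -/
theorem result (X : CubicFourfold) (H : H4 X) (hH : H.IsCohomology) (hR : KnownRational H)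
    (hP : Nonempty X.Plane) :
    (H.HasK3 ↔ ∃ v, H.IsHodge v ∧ ¬ 4 ∣ H.disc v) ∧
    ((∃ v, H.IsHodge v ∧ ¬ 4 ∣ H.disc v ∧ H.disc v ≤ 42) → X.IsRational ∧ H.HasK3) := by
  refine ⟨hasK3_iff_of_plane hH hP, ?_⟩
  rintro ⟨v, hv, h4, hle⟩
  exact ⟨rational_of_small hH hR hP hv h4 hle, (hasK3_iff_of_plane hH hP).2 ⟨v, hv, h4⟩⟩

end Pool.Agent.Results.MP_ffd2c1_ag.PlaneDiscriminants
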