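import Mathlib
import Pool.Agent.N122.Tw

/-!
# Odd families of rational cubic curves in a smooth cubic hypersurface are families of twisted cubics

Let `X = (F = 0)` be a smooth cubic hypersurface of dimension `n ≥ 1`, for example any smooth cubic
fourfold. Let `M` be a field which contains `ℂ`, `L` a subfield, `t` an element of `M` which is
transcendental over `L`, and let `x = a_0 + t a_1 + t² a_2 + t³ a_3`, with vectors `a_j` over `L`, be
a generic point of `X` such that the degree of `M` over the function field of `X` is odd. Thus `x` is
the generic point of a family of rational curves of degree at most three (with a parametrization over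
the base of the family, a variety with the function field `L`), and the curves of the family cover
`X` an odd number of times. If the curves have degree three, then they are twisted cubics: the
vectors `a_0, ..., a_3` are linearly independent over `L`. More precisely, if these vectors are
linearly dependent, then the parametrization has degree at most two, after division by a linear
factor: `a_3 = 0` or the polynomials `a_0 + s a_1 + s² a_2 + s³ a_3` have a common zero `s` in `L`.

In particular (take `L` the field of rational functions in `n - 1` variables, `M = L(t)`): a
dominant rational map of odd degree from `ℙⁿ` to `X`, for example a birational map, does not map the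
lines through a point birationally to plane cubic curves.

Idea of the proof. Let `l_0 a_0 + ... + l_3 a_3 = 0` be a relation. The parameters of the double
point of the plane curve are the zeros of the quadratic polynomial `Q` with the coefficients
`l_1 l_3 - l_2²`, `l_1 l_2 - l_0 l_3`, `l_0 l_2 - l_1²`; division by `Q` gives
`x = Q (u + t w) + R p` with `R` linear, coprime to `Q`, and the double point `p`. From `F(x) = 0`
and coprimality it follows that `F(p) = 0` and that `u` and `w` are in the tangent hyperplane of `X`
at `p`. Hence `x` is in the tangent hyperplane at `p`, which is impossible for a point of odd degree.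
-/

set_option autoImplicit false

namespace Pool.Agent.Results.MP_ffd2c1_ag.TwistedCubics

open MvPolynomial

/-- `F` is the equation of a smooth cubic hypersurface of dimension `n`: a cubic form in `n + 2`
variables whose partial derivatives have no common zero besides the origin -/
def SmoothCubic {n : ℕ} (F : MvPolynomial (Fin (n + 2)) ℂ) : Prop :=
  F.IsHomogeneous 3 ∧ ∀ z : Fin (n + 2) → ℂ, (∀ i, eval z (pderiv i F) = 0) → z = 0

/-- `x` is a generic point of the hypersurface `F = 0` with coordinates in an extension field `M` of
the complex numbers: `F` vanishes at `x`, and every form vanishing at `x` is divisible by `F` -/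
def GenericPoint {n : ℕ} {M : Type} [Field M] [Algebra ℂ M] (F : MvPolynomial (Fin (n + 2)) ℂ)
    (x : Fin (n + 2) → M) : Prop :=
  aeval x F = 0 ∧ ∀ (e : ℕ) (H : MvPolynomial (Fin (n + 2)) ℂ), H.IsHomogeneous e →
    aeval x H = 0 → F ∣ H

/-- the field generated by the ratios of the coordinates of `x`; for a generic point of `X` it is
the function field of `X` -/
noncomputable def functionField {n : ℕ} {M : Type} [Field M] [Algebra ℂ M] (x : Fin (n + 2) → M) :
    IntermediateField ℂ M :=
  IntermediateField.adjoin ℂ {z | ∃ i j, z = x i / x j}

/-- `x` is a generic point of the hypersurface `F = 0`, and the field `M` has odd degree over the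
function field of the hypersurface -/
def OddPoint {n : ℕ} {M : Type} [Field M] [Algebra ℂ M] (F : MvPolynomial (Fin (n + 2)) ℂ)
    (x : Fin (n + 2) → M) : Prop :=
  GenericPoint F x ∧ Odd (Module.finrank (functionField x) M)

/-- Let `X = (F = 0)` be a smooth cubic hypersurface of dimension `n ≥ 1`, `L` a subfield of `M`, `t`
an element of `M` which is transcendental over `L` and `a_0, ..., a_3` vectors over `L` such that
`a_0 + t a_1 + t² a_2 + t³ a_3` is a generic point of `X` and `M` has odd degree over the function
field of `X`. Then `a_0, ..., a_3` are linearly independent over `L`, or the parametrization has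
degree at most two: `a_3 = 0` or the polynomials `a_0 + s a_1 + s² a_2 + s³ a_3` have a common zero
`s` in `L`. -/
theorem result (n : ℕ) (hn : 1 ≤ n) (F : MvPolynomial (Fin (n + 2)) ℂ) (hF : SmoothCubic F)
    (M : Type) [Field M] [Algebra ℂ M] (L : IntermediateField ℂ M) (t : M)
    (ht : Transcendental L t) (a : Fin 4 → Fin (n + 2) → L)
    (hx : OddPoint F (fun i => ∑ j : Fin 4, t ^ (j : ℕ) * (a j i : M))) :
    LinearIndependent L a ∨ a 3 = 0 ∨ ∃ s : L, ∀ i, ∑ j : Fin 4, s ^ (j : ℕ) * a j i = 0 := by
  by_contra hcon
  push Not at hcon
  obtain ⟨h1, h2, h3⟩ := hcon
  rw [Fintype.linearIndependent_iff] at h1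
  push Not at h1
  obtain ⟨l, hl, j0, hj0⟩ := h1
  refine Pool.Agent.N122.Tw.main hn hF.1 hF.2 L t ht _ hx.1 hx.2 (a 0) (a 1) (a 2) (a 3)
    (fun i => ?_) (l 0) (l 1) (l 2) (l 3) (fun i => ?_) ?_ h2 (fun s => ?_)
  · rw [Fin.sum_univ_four]
    simp
  · have h4 := congrFun hl i
    rw [Fin.sum_univ_four] at h4
    simpa using h4
  · fin_cases j0
    · exact Or.inl hj0
    · exact Or.inr (Or.inl hj0)
    · exact Or.inr (Or.inr (Or.inl hj0))
    · exact Or.inr (Or.inr (Or.inr hj0))
  · obtain ⟨i, hi⟩ := h3 s
    refine ⟨i, fun h => hi ?_⟩
    rw [Fin.sum_univ_four]
    simpa using h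

end Pool.Agent.Results.MP_ffd2c1_ag.TwistedCubics
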